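import Pool.Agent.H58b.CritTwo

/-!
# General lemmas: halves of involutions, more punctures
-/

open Polynomial

namespace Pool.Agent.H94.CP

open Pool.Agent.H58b

/-- a set of representatives for a fixed point free involution -/
lemma exists_half {α : Type} [DecidableEq α] (B : Finset α) (σ : α → α)
    (hσ : ∀ x ∈ B, σ x ∈ B) (hσ2 : ∀ x ∈ B, σ (σ x) = x) (hne : ∀ x ∈ B, σ x ≠ x) :
    ∃ S ⊆ B, 2 * S.card ≤ B.card ∧ ∀ x ∈ B, x ∈ S ∨ σ x ∈ S := by
  classical
  let _ : LinearOrder α := linearOrderOfSTO WellOrderingRel
  refine ⟨B.filter (fun x => x < σ x), Finset.filter_subset _ _, ?_, ?_⟩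
  · have h1 : (B.filter (fun x => x < σ x)).card ≤ (B.filter (fun x => σ x < x)).card := by
      refine Finset.card_le_card_of_injOn σ ?_ ?_
      · intro x hx
        have hx' := Finset.mem_filter.mp (Finset.mem_coe.mp hx)
        refine Finset.mem_coe.mpr (Finset.mem_filter.mpr ⟨hσ x hx'.1, ?_⟩)
        rw [hσ2 x hx'.1]
        exact hx'.2
      · intro x hx y hy hxy
        have hx' := (Finset.mem_filter.mp (Finset.mem_coe.mp hx)).1
        have hy' := (Finset.mem_filter.mp (Finset.mem_coe.mp hy)).1
        rw [← hσ2 x hx', ← hσ2 y hy', hxy]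
    have h2 : Disjoint (B.filter (fun x => x < σ x)) (B.filter (fun x => σ x < x)) := by
      rw [Finset.disjoint_filter]
      intro x _ h h'
      exact lt_asymm h h'
    have h3 : (B.filter (fun x => x < σ x) ∪ B.filter (fun x => σ x < x)).card ≤ B.card :=
      Finset.card_le_card (Finset.union_subset (Finset.filter_subset _ _)
        (Finset.filter_subset _ _))
    rw [Finset.card_union_of_disjoint h2] at h3
    omega
  · intro x hx
    rcases lt_or_gt_of_ne (hne x hx) with h | h
    · right
      refine Finset.mem_filter.mpr ⟨hσ x hx, ?_⟩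
      rw [hσ2 x hx]
      exact h
    · left
      exact Finset.mem_filter.mpr ⟨hx, h⟩

lemma regular_mono {S T : Finset ℂ} (hST : S ⊆ T) {u : ℂ → ℂ} (h : CPRegular S u) :
    CPRegular T u := by
  classical
  have key : ∀ R : Finset ℂ, CPRegular (S ∪ R) u := by
    intro R
    induction R using Finset.induction_on with
    | empty => simpa using h
    | insert a R ha ih =>
      rw [Finset.union_insert]
      by_cases haS : a ∈ S ∪ R
      · rw [Finset.insert_eq_of_mem haS]; exact ih
      · exact ih.insert haS
  have := key T
  rwa [Finset.union_eq_right.mpr hST] at this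

/-- more punctures do not decrease the number -/
lemma witness_mono {n n' m : ℕ} (h : CPWitness n m) (hn : n ≤ n') : CPWitness n' m := by
  induction n', hn using Nat.le_induction with
  | base => exact h
  | succ k _ ih => exact ih.succ

end Pool.Agent.H94.CP
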