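import Mathlib

/-!
# The polynomial of the ratios of the double points

`L = (m - 1) (S ^ (m + 1) - 1) - (m + 1) (S ^ m - S)`, `m = M + 2`, has a triple root at one.
-/

open Polynomial

namespace Pool.Agent.H94.CP

/-- `(m - 1) (S ^ (m + 1) - 1) - (m + 1) (S ^ m - S)`, `m = M + 2` -/
noncomputable def LP (M : ℕ) : ℂ[X] :=
  C ((M : ℂ) + 1) * (X ^ (M + 3) - 1) - C ((M : ℂ) + 3) * (X ^ (M + 2) - X)

lemma deriv_X_pow' (k : ℕ) : derivative ((X : ℂ[X]) ^ (k + 1)) = C ((k : ℂ) + 1) * X ^ k := by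
  rw [derivative_pow_succ, derivative_X, mul_one]

lemma deriv_LP (M : ℕ) : derivative (LP M) =
    C (((M : ℂ) + 1) * ((M : ℂ) + 3)) * X ^ (M + 2) -
      C ((M : ℂ) + 3) * (C ((M : ℂ) + 2) * X ^ (M + 1) - 1) := by
  unfold LP
  rw [derivative_sub, derivative_C_mul, derivative_C_mul, derivative_sub, derivative_sub,
    deriv_X_pow' (M + 2), deriv_X_pow' (M + 1), derivative_one, derivative_X]
  simp only [map_add, map_mul, map_ofNat, map_one, map_natCast, Nat.cast_add, Nat.cast_ofNat,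
    Nat.cast_one]
  ring

lemma deriv2_LP (M : ℕ) : derivative (derivative (LP M)) =
    C (((M : ℂ) + 1) * ((M : ℂ) + 3) * ((M : ℂ) + 2)) * (X ^ (M + 1) - X ^ M) := by
  rw [deriv_LP, derivative_sub, derivative_C_mul, derivative_C_mul, derivative_sub,
    derivative_C_mul, deriv_X_pow' (M + 1), deriv_X_pow' M, derivative_one]
  simp only [map_add, map_mul, map_ofNat, map_one, map_natCast, Nat.cast_add, Nat.cast_ofNat,
    Nat.cast_one]
  ring

lemma eval_LP (M : ℕ) (s : ℂ) : (LP M).eval s =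
    ((M : ℂ) + 1) * (s ^ (M + 3) - 1) - ((M : ℂ) + 3) * (s ^ (M + 2) - s) := by
  simp [LP]

lemma LP_ne_zero (M : ℕ) : LP M ≠ 0 := by
  intro h
  have h1 := eval_LP M 0
  rw [h, eval_zero, zero_pow (by omega), zero_pow (by omega)] at h1
  have h2 : ((M : ℂ) + 1) ≠ 0 := by exact_mod_cast Nat.succ_ne_zero M
  apply h2
  linear_combination h1

lemma natDegree_LP_le (M : ℕ) : (LP M).natDegree ≤ M + 3 := by
  unfold LP
  compute_degree

/-- the polynomial without its triple root at one -/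
lemma exists_quotS (M : ℕ) : ∃ G : ℂ[X], G ≠ 0 ∧ G.natDegree ≤ M ∧
    LP M = (X - C 1) ^ 3 * G := by
  have h3 : 2 < (LP M).rootMultiplicity 1 := by
    refine lt_rootMultiplicity_of_isRoot_iterate_derivative (LP_ne_zero M) ?_
    intro m hm
    interval_cases m
    · rw [Function.iterate_zero, id, IsRoot.def, eval_LP]; simp
    · rw [Function.iterate_one, IsRoot.def, deriv_LP]
      simp only [eval_sub, eval_mul, eval_pow, eval_C, eval_X, eval_one, one_pow]
      ring
    · rw [Function.iterate_succ, Function.comp_apply, Function.iterate_one, IsRoot.def, deriv2_LP]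
      simp
  have h4 : (X - C 1) ^ 3 ∣ LP M :=
    (pow_dvd_pow _ h3).trans (pow_rootMultiplicity_dvd _ _)
  obtain ⟨G, hG⟩ := h4
  have hG0 : G ≠ 0 := by
    rintro rfl
    rw [mul_zero] at hG
    exact LP_ne_zero M hG
  refine ⟨G, hG0, ?_, hG⟩
  have h5 := natDegree_LP_le M
  rw [hG, ((monic_X_sub_C (1:ℂ)).pow 3).natDegree_mul' hG0, natDegree_pow, natDegree_X_sub_C] at h5
  omega

/-- the ratios other than one are at most `m - 2` in number -/
lemma exists_R (M : ℕ) : ∃ R : Finset ℂ, R.card ≤ M ∧ ∀ s : ℂ, s ∈ R ↔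
    (s ≠ 1 ∧ ((M : ℂ) + 1) * (s ^ (M + 3) - 1) - ((M : ℂ) + 3) * (s ^ (M + 2) - s) = 0) := by
  classical
  obtain ⟨G, hG0, hGd, hG⟩ := exists_quotS M
  refine ⟨G.roots.toFinset.filter (· ≠ 1), ?_, fun s => ?_⟩
  · refine (Finset.card_le_card (Finset.filter_subset _ _)).trans ?_
    exact (Multiset.toFinset_card_le _).trans ((card_roots' _).trans hGd)
  · rw [Finset.mem_filter, Multiset.mem_toFinset, mem_roots hG0, IsRoot.def, ← eval_LP, hG,
      eval_mul, eval_pow, eval_sub, eval_X, eval_C]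
    constructor
    · rintro ⟨h1, h2⟩
      exact ⟨h2, by rw [h1, mul_zero]⟩
    · rintro ⟨h1, h2⟩
      refine ⟨?_, h1⟩
      rcases mul_eq_zero.mp h2 with h | h
      · exact absurd (sub_eq_zero.mp (pow_eq_zero_iff (three_ne_zero) |>.mp h)) h1
      · exact h

end Pool.Agent.H94.CP
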