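import Pool.Agent.H94.CP.Half
import Pool.Agent.H94.CP.PolyS

/-!
# Star shaped hypocycloids with `2 m` cusps, all but `m ^ 2` points kept

`u z = z ^ m + z ^ (-m)`, `v z = (m - 1) z ^ (m + 1) + (m + 1) z ^ (1 - m)`, `m = M + 2`.
-/

open Polynomial

namespace Pool.Agent.H94.CP

open Pool.Agent.H58b

/-- `z ^ m + z ^ (-m)`, `m = M + 2` -/
noncomputable def uF (M : ℕ) (z : ℂ) : ℂ := (z ^ (2 * M + 4) + 1) / z ^ (M + 2)

/-- `(m - 1) z ^ (m + 1) + (m + 1) z ^ (1 - m)`, `m = M + 2` -/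
noncomputable def vF (M : ℕ) (z : ℂ) : ℂ :=
  (((M : ℂ) + 1) * z ^ (2 * M + 4) + ((M : ℂ) + 3)) / z ^ (M + 1)

lemma castA (M : ℕ) : (M : ℂ) + 1 ≠ 0 := by exact_mod_cast Nat.succ_ne_zero M

lemma castB (M : ℕ) : (M : ℂ) + 3 ≠ 0 := by
  have : ((M + 3 : ℕ) : ℂ) ≠ 0 := Nat.cast_ne_zero.mpr (by omega)
  push_cast at this
  exact this

lemma key {M : ℕ} {z w : ℂ} (hz : z ≠ 0) (hw : w ≠ 0) (hne : z ≠ w) (hu : uF M z = uF M w)
    (hv : vF M z = vF M w) :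
    (z ^ (M + 2) = w ^ (M + 2) ∧ z ^ (2 * M + 4) = -(((M : ℂ) + 3) / ((M : ℂ) + 1))) ∨
    (∃ s : ℂ, s ≠ 1 ∧
      ((M : ℂ) + 1) * (s ^ (M + 3) - 1) - ((M : ℂ) + 3) * (s ^ (M + 2) - s) = 0 ∧
      z = s * w ∧ z ^ (2 * M + 4) = s ^ (M + 2)) := by
  have ea : z ^ (2 * M + 4) = (z ^ (M + 2)) ^ 2 := by rw [← pow_mul]; congr 1; ring
  have eb : w ^ (2 * M + 4) = (w ^ (M + 2)) ^ 2 := by rw [← pow_mul]; congr 1; ring
  unfold uF at hu
  unfold vF at hv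
  rw [div_eq_div_iff (pow_ne_zero _ hz) (pow_ne_zero _ hw), ea, eb] at hu
  rw [div_eq_div_iff (pow_ne_zero _ hz) (pow_ne_zero _ hw), ea, eb] at hv
  have e1 : z ^ (M + 2) = z * z ^ (M + 1) := by ring
  have e2 : w ^ (M + 2) = w * w ^ (M + 1) := by ring
  have ha0 : z ^ (M + 2) ≠ 0 := pow_ne_zero _ hz
  have hb0 : w ^ (M + 2) ≠ 0 := pow_ne_zero _ hw
  have hab : (z ^ (M + 2) - w ^ (M + 2)) * (z ^ (M + 2) * w ^ (M + 2) - 1) = 0 := by
    linear_combination hu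
  rcases mul_eq_zero.mp hab with h | h
  · left
    have h' : z ^ (M + 2) = w ^ (M + 2) := sub_eq_zero.mp h
    refine ⟨h', ?_⟩
    rw [← h'] at hv
    have h2 : (((M : ℂ) + 1) * (z ^ (M + 2)) ^ 2 + ((M : ℂ) + 3)) * (w ^ (M + 1) - z ^ (M + 1)) =
        0 := by
      linear_combination hv
    rcases mul_eq_zero.mp h2 with h3 | h3
    · rw [ea]
      have := castA M
      field_simp
      linear_combination h3
    · exfalso
      have h4 : w ^ (M + 1) = z ^ (M + 1) := sub_eq_zero.mp h3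
      rw [e1, e2, h4] at h'
      exact hne (mul_right_cancel₀ (pow_ne_zero _ hz) h')
  · right
    have h' : z ^ (M + 2) * w ^ (M + 2) = 1 := sub_eq_zero.mp h
    refine ⟨z / w, ?_, ?_, ?_, ?_⟩
    · intro h1
      rw [div_eq_one_iff_eq hw] at h1
      exact hne h1
    · have h5 : (((M : ℂ) + 1) * z ^ (M + 2) + ((M : ℂ) + 3) * w ^ (M + 2)) * z =
          (((M : ℂ) + 1) * w ^ (M + 2) + ((M : ℂ) + 3) * z ^ (M + 2)) * w := by
        have h6 : (((M : ℂ) + 1) * (z ^ (M + 2)) ^ 2 + ((M : ℂ) + 3)) * w ^ (M + 2) * z =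
            (((M : ℂ) + 1) * (w ^ (M + 2)) ^ 2 + ((M : ℂ) + 3)) * z ^ (M + 2) * w := by
          linear_combination (w * z) * hv +
            ((((M : ℂ) + 1) * (z ^ (M + 2)) ^ 2 + ((M : ℂ) + 3)) * z) * e2 -
            ((((M : ℂ) + 1) * (w ^ (M + 2)) ^ 2 + ((M : ℂ) + 3)) * w) * e1
        linear_combination h6 - (((M : ℂ) + 1) * z ^ (M + 2) * z) * h' +
          (((M : ℂ) + 1) * w ^ (M + 2) * w) * h'
      have h7 : (z / w) ^ (M + 3) * w ^ (M + 3) = z ^ (M + 3) := by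
        rw [← mul_pow, div_mul_cancel₀ _ hw]
      have h8 : (z / w) ^ (M + 2) * w ^ (M + 2) = z ^ (M + 2) := by
        rw [← mul_pow, div_mul_cancel₀ _ hw]
      have h9 : (z / w) * w = z := div_mul_cancel₀ _ hw
      have h10 : (((M : ℂ) + 1) * ((z / w) ^ (M + 3) - 1) -
          ((M : ℂ) + 3) * ((z / w) ^ (M + 2) - z / w)) * w ^ (M + 3) = 0 := by
        have e3 : w ^ (M + 3) = w * w ^ (M + 2) := by ring
        have e4 : z ^ (M + 3) = z * z ^ (M + 2) := by ring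
        have : (((M : ℂ) + 1) * ((z / w) ^ (M + 3) - 1) -
          ((M : ℂ) + 3) * ((z / w) ^ (M + 2) - z / w)) * w ^ (M + 3) =
          ((M : ℂ) + 1) * ((z / w) ^ (M + 3) * w ^ (M + 3) - w ^ (M + 3)) -
          ((M : ℂ) + 3) * ((z / w) ^ (M + 2) * w ^ (M + 2) * w - (z / w) * w * w ^ (M + 2)) := by
          ring
        rw [this, h7, h8, h9, e3, e4]
        linear_combination h5
      exact (mul_eq_zero.mp h10).resolve_right (pow_ne_zero _ hw)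
    · exact (div_mul_cancel₀ _ hw).symm
    · rw [ea, div_pow, eq_div_iff hb0]
      linear_combination (z ^ (M + 2)) * h'

end Pool.Agent.H94.CP
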