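import Pool.Agent.H94.CP.Star

/-!
# `N(0, m ^ 2) ≥ 2 m`
-/

open Polynomial

namespace Pool.Agent.H94.CP

open Pool.Agent.H58b

/-- the equation of the ratios -/
def IsRatio (M : ℕ) (s : ℂ) : Prop :=
  s ≠ 1 ∧ ((M : ℂ) + 1) * (s ^ (M + 3) - 1) - ((M : ℂ) + 3) * (s ^ (M + 2) - s) = 0

lemma IsRatio.ne_zero {M : ℕ} {s : ℂ} (h : IsRatio M s) : s ≠ 0 := by
  rintro rfl
  have h1 := h.2
  rw [zero_pow (by omega), zero_pow (by omega)] at h1
  apply castA M
  linear_combination -h1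

lemma IsRatio.inv {M : ℕ} {s : ℂ} (h : IsRatio M s) : IsRatio M s⁻¹ := by
  have hs := h.ne_zero
  refine ⟨fun h1 => h.1 (inv_eq_one.mp h1), ?_⟩
  have h2 : (((M : ℂ) + 1) * (s⁻¹ ^ (M + 3) - 1) - ((M : ℂ) + 3) * (s⁻¹ ^ (M + 2) - s⁻¹)) *
      s ^ (M + 3) = 0 := by
    have e1 : s⁻¹ ^ (M + 3) * s ^ (M + 3) = 1 := by rw [← mul_pow, inv_mul_cancel₀ hs, one_pow]
    have e2 : s⁻¹ ^ (M + 2) * s ^ (M + 2) = 1 := by rw [← mul_pow, inv_mul_cancel₀ hs, one_pow]
    have e3 : s⁻¹ * s = 1 := inv_mul_cancel₀ hs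
    have e4 : s ^ (M + 3) = s * s ^ (M + 2) := by ring
    have : (((M : ℂ) + 1) * (s⁻¹ ^ (M + 3) - 1) - ((M : ℂ) + 3) * (s⁻¹ ^ (M + 2) - s⁻¹)) *
      s ^ (M + 3) = ((M : ℂ) + 1) * (s⁻¹ ^ (M + 3) * s ^ (M + 3) - s ^ (M + 3)) -
        ((M : ℂ) + 3) * (s⁻¹ ^ (M + 2) * s ^ (M + 2) * s - s⁻¹ * s * s ^ (M + 2)) := by
      rw [e4]; ring
    rw [this, e1, e2, e3]
    linear_combination -h.2
  exact (mul_eq_zero.mp h2).resolve_right (pow_ne_zero _ hs)

/-- the directed double points with `(z w) ^ m = 1`: pairs of a point and a ratio -/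
lemma exists_E (M : ℕ) : ∃ E : Finset (ℂ × ℂ), E.card ≤ M * (2 * M + 4) ∧
    ∀ p : ℂ × ℂ, p ∈ E ↔ (IsRatio M p.2 ∧ p.1 ^ (2 * M + 4) = p.2 ^ (M + 2)) := by
  classical
  obtain ⟨R, hRc, hR⟩ := exists_R M
  refine ⟨R.biUnion (fun s => ((nthRoots (2 * M + 4) (s ^ (M + 2))).toFinset.image
    (fun z => (z, s)))), ?_, fun p => ?_⟩
  · refine Finset.card_biUnion_le.trans ?_
    refine (Finset.sum_le_card_nsmul R _ (2 * M + 4) fun s _ => ?_).trans ?_
    · exact Finset.card_image_le.trans ((Multiset.toFinset_card_le _).trans (card_nthRoots _ _))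
    · rw [smul_eq_mul]
      exact Nat.mul_le_mul_right _ hRc
  · rw [Finset.mem_biUnion]
    constructor
    · rintro ⟨s, hs, hp⟩
      obtain ⟨z, hz, rfl⟩ := Finset.mem_image.mp hp
      rw [Multiset.mem_toFinset, mem_nthRoots (by omega)] at hz
      exact ⟨(hR s).1 hs, hz⟩
    · rintro ⟨h1, h2⟩
      refine ⟨p.2, (hR _).2 h1, Finset.mem_image.mpr ⟨p.1, ?_, rfl⟩⟩
      rw [Multiset.mem_toFinset, mem_nthRoots (by omega)]
      exact h2

/-- representatives of the double points of the second kind -/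
lemma exists_H (M : ℕ) : ∃ H : Finset ℂ, H.card ≤ M * (M + 2) ∧
    (∀ z ∈ H, ∃ s, IsRatio M s ∧ z ^ (2 * M + 4) = s ^ (M + 2)) ∧
    ∀ z w s : ℂ, IsRatio M s → z = s * w → z ^ (2 * M + 4) = s ^ (M + 2) → z ∈ H ∨ w ∈ H := by
  classical
  obtain ⟨E, hEc, hE⟩ := exists_E M
  obtain ⟨K, hKE, hKc, hK⟩ := exists_half E (fun p => (p.1 / p.2, p.2⁻¹))
    (fun p hp => by
      obtain ⟨h1, h2⟩ := (hE p).1 hp
      refine (hE _).2 ⟨h1.inv, ?_⟩
      have hs := h1.ne_zero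
      have e : p.2 ^ (2 * M + 4) = p.2 ^ (M + 2) * p.2 ^ (M + 2) := by
        rw [← pow_add]; congr 1; omega
      change (p.1 / p.2) ^ (2 * M + 4) = p.2⁻¹ ^ (M + 2)
      rw [div_pow, h2, e, inv_pow]
      have := pow_ne_zero (M + 2) hs
      field_simp)
    (fun p hp => by
      obtain ⟨h1, h2⟩ := (hE p).1 hp
      have hs := h1.ne_zero
      refine Prod.ext ?_ ?_
      · change p.1 / p.2 / p.2⁻¹ = p.1
        field_simp
      · change (p.2⁻¹)⁻¹ = p.2
        exact inv_inv _)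
    (fun p hp h => by
      obtain ⟨h1, h2⟩ := (hE p).1 hp
      have hs := h1.ne_zero
      have hz : p.1 ≠ 0 := by
        intro h0
        rw [h0, zero_pow (by omega)] at h2
        exact pow_ne_zero _ hs h2.symm
      have h3 : p.1 / p.2 = p.1 := congrArg Prod.fst h
      rw [div_eq_iff hs] at h3
      exact h1.1 (mul_left_cancel₀ hz (by rw [mul_one]; exact h3.symm)))
  refine ⟨K.image Prod.fst, ?_, ?_, ?_⟩
  · refine Finset.card_image_le.trans ?_
    have : M * (2 * M + 4) = 2 * (M * (M + 2)) := by ring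
    omega
  · intro z hz
    obtain ⟨p, hp, rfl⟩ := Finset.mem_image.mp hz
    exact ⟨p.2, (hE p).1 (hKE hp)⟩
  · intro z w s hs hzw hz
    have hp : (z, s) ∈ E := (hE _).2 ⟨hs, hz⟩
    rcases hK _ hp with h | h
    · left
      exact Finset.mem_image.mpr ⟨_, h, rfl⟩
    · right
      refine Finset.mem_image.mpr ⟨_, h, ?_⟩
      change z / s = w
      rw [hzw, mul_div_cancel_left₀ _ hs.ne_zero]

/-- representatives of the double points of the first kind: all but two points can be removed -/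
lemma exists_Z (M : ℕ) : ∃ Z : Finset ℂ, Z.card ≤ 2 * M + 2 ∧
    (∀ z ∈ Z, z ^ (2 * M + 4) = -(((M : ℂ) + 3) / ((M : ℂ) + 1))) ∧
    ∀ z w : ℂ, z ≠ w → z ^ (M + 2) = w ^ (M + 2) →
      z ^ (2 * M + 4) = -(((M : ℂ) + 3) / ((M : ℂ) + 1)) → z ∈ Z ∨ w ∈ Z := by
  classical
  set τ : ℂ := -(((M : ℂ) + 3) / ((M : ℂ) + 1)) with hτ
  have hτ0 : τ ≠ 0 := neg_ne_zero.mpr (div_ne_zero (castB M) (castA M))
  obtain ⟨z₁, hz₁⟩ := IsAlgClosed.exists_pow_nat_eq τ (by omega : 0 < 2 * M + 4)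
  have hω := Complex.isPrimitiveRoot_exp (2 * M + 4) (by omega)
  set ω := Complex.exp (2 * Real.pi * Complex.I / ((2 * M + 4 : ℕ) : ℂ)) with hωdef
  have hωm : ω ^ (M + 2) ≠ 1 := by
    intro h
    have := hω.dvd_of_pow_eq_one (M + 2) h
    have := Nat.le_of_dvd (by omega) this
    omega
  have hz₁0 : z₁ ≠ 0 := by
    rintro rfl
    rw [zero_pow (by omega)] at hz₁
    exact hτ0 hz₁.symm
  set Z0 := (nthRoots (2 * M + 4) τ).toFinset with hZ0
  have hmem : ∀ z, z ∈ Z0 ↔ z ^ (2 * M + 4) = τ := by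
    intro z
    rw [hZ0, Multiset.mem_toFinset, mem_nthRoots (by omega)]
  have hne : z₁ ≠ ω * z₁ := by
    intro h
    have h1 : ω = 1 := by
      have : (ω - 1) * z₁ = 0 := by linear_combination -h
      rcases mul_eq_zero.mp this with h' | h'
      · exact sub_eq_zero.mp h'
      · exact absurd h' hz₁0
    apply hωm
    rw [h1, one_pow]
  have hsub : ({z₁, ω * z₁} : Finset ℂ) ⊆ Z0 := by
    intro z hz
    rw [Finset.mem_insert, Finset.mem_singleton] at hz
    rw [hmem]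
    rcases hz with rfl | rfl
    · exact hz₁
    · rw [mul_pow, hω.pow_eq_one, one_mul, hz₁]
  refine ⟨Z0 \ {z₁, ω * z₁}, ?_, ?_, ?_⟩
  · have h1 := Finset.card_sdiff_add_card_eq_card hsub
    have h2 : ({z₁, ω * z₁} : Finset ℂ).card = 2 := Finset.card_pair hne
    have h3 : Z0.card ≤ 2 * M + 4 :=
      (Multiset.toFinset_card_le _).trans (card_nthRoots _ _)
    omega
  · intro z hz
    exact (hmem z).1 (Finset.mem_sdiff.mp hz).1
  · intro z w hzw hp hz
    by_contra hcon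
    rw [not_or] at hcon
    obtain ⟨h1, h2⟩ := hcon
    have hw : w ^ (2 * M + 4) = τ := by
      have e : ∀ x : ℂ, x ^ (2 * M + 4) = (x ^ (M + 2)) ^ 2 := fun x => by
        rw [← pow_mul]; congr 1; ring
      rw [e w, ← hp, ← e z, hz]
    have hz' : z ∈ ({z₁, ω * z₁} : Finset ℂ) := by
      by_contra h
      exact h1 (Finset.mem_sdiff.mpr ⟨(hmem z).2 hz, h⟩)
    have hw' : w ∈ ({z₁, ω * z₁} : Finset ℂ) := by
      by_contra h
      exact h2 (Finset.mem_sdiff.mpr ⟨(hmem w).2 hw, h⟩)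
    rw [Finset.mem_insert, Finset.mem_singleton] at hz' hw'
    have hz1m : z₁ ^ (M + 2) ≠ 0 := pow_ne_zero _ hz₁0
    rcases hz' with rfl | rfl <;> rcases hw' with rfl | rfl
    · exact hzw rfl
    · rw [mul_pow] at hp
      apply hωm
      exact mul_right_cancel₀ hz1m (by rw [one_mul]; exact hp.symm)
    · rw [mul_pow] at hp
      apply hωm
      exact mul_right_cancel₀ hz1m (by rw [one_mul]; exact hp)
    · exact hzw rfl

/-- A sphere with at most `m ^ 2` punctures and `2 m` common critical points. -/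
theorem star_witness (M : ℕ) : ∃ n, n ≤ (M + 2) ^ 2 ∧ CPWitness n (2 * M + 4) := by
  classical
  obtain ⟨H, hHc, hH1, hH2⟩ := exists_H M
  obtain ⟨Z, hZc, hZ1, hZ2⟩ := exists_Z M
  have hprim := Complex.isPrimitiveRoot_exp (2 * M + 4) (by omega)
  set S : Finset ℂ := insert 0 (Z ∪ H) with hS
  have h0S : ({0} : Finset ℂ) ⊆ S := Finset.singleton_subset_iff.mpr (Finset.mem_insert_self _ _)
  refine ⟨S.card + 1, ?_, S, uF M, vF M,
    nthRootsFinset (2 * M + 4) (1 : ℂ), ⟨rfl, ?_, ?_, ?_⟩, hprim.card_nthRootsFinset, ?_⟩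
  · have h1 : S.card ≤ (Z ∪ H).card + 1 := Finset.card_insert_le _ _
    have h2 : (Z ∪ H).card ≤ Z.card + H.card := Finset.card_union_le _ _
    have h3 : (M + 2) ^ 2 = M * (M + 2) + (2 * M + 2) + 2 := by ring
    omega
  · refine regular_mono h0S ?_
    refine ⟨X ^ (2 * M + 4) + 1, M + 2, fun z _ => ?_⟩
    simp [uF]
  · refine regular_mono h0S ?_
    refine ⟨C ((M : ℂ) + 1) * X ^ (2 * M + 4) + C ((M : ℂ) + 3), M + 1, fun z _ => ?_⟩
    simp only [Finset.prod_singleton, sub_zero, eval_mul, eval_add, eval_C, eval_pow, eval_X]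
    rfl
  · intro x hx y hy hxy
    simp only [Set.mem_ofPred_eq, hS, Finset.mem_insert, Finset.mem_union, not_or] at hx hy
    simp only [Prod.mk.injEq] at hxy
    by_contra hne
    rcases key hx.1 hy.1 hne hxy.1 hxy.2 with ⟨h1, h2⟩ | ⟨s, h1, h2, h3, h4⟩
    · rcases hZ2 x y hne h1 h2 with h | h
      · exact hx.2.1 h
      · exact hy.2.1 h
    · rcases hH2 x y s ⟨h1, h2⟩ h3 h4 with h | h
      · exact hx.2.2 h
      · exact hy.2.2 h
  · intro x hx
    rw [Finset.mem_coe, mem_nthRootsFinset (by omega : 0 < 2 * M + 4)] at hx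
    have hx0 : x ≠ 0 := by
      rintro rfl
      rw [zero_pow (by omega)] at hx
      exact zero_ne_one hx
    refine ⟨?_, ?_, ?_⟩
    · rw [hS, Finset.mem_insert, Finset.mem_union, not_or, not_or]
      refine ⟨hx0, fun h => ?_, fun h => ?_⟩
      · have h1 := hZ1 x h
        rw [hx] at h1
        have h2 := castA M
        field_simp at h1
        have h3 : (((2 * M + 4 : ℕ)) : ℂ) ≠ 0 := Nat.cast_ne_zero.mpr (by omega)
        apply h3
        push_cast
        linear_combination h1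
      · obtain ⟨s, hs, h1⟩ := hH1 x h
        rw [hx] at h1
        have h2 := hs.2
        have e : s ^ (M + 3) = s * s ^ (M + 2) := by ring
        rw [e, ← h1] at h2
        have h3 : (2 * (M : ℂ) + 4) * (s - 1) = 0 := by linear_combination h2
        have h4 : (((2 * M + 4 : ℕ)) : ℂ) ≠ 0 := Nat.cast_ne_zero.mpr (by omega)
        push_cast at h4
        exact hs.1 (sub_eq_zero.mp ((mul_eq_zero.mp h3).resolve_left h4))
    · refine cp_deriv_div (f := fun z => z ^ (2 * M + 4) + 1) (g := fun z => z ^ (M + 2))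
        ((hasDerivAt_pow (2 * M + 4) x).add_const 1) (hasDerivAt_pow (M + 2) x)
        (pow_ne_zero _ hx0) ?_
      push_cast
      have e1 : x ^ (2 * M + 3) * x ^ (M + 2) = x ^ (2 * M + 4) * x ^ (M + 1) := by ring
      linear_combination (2 * (M : ℂ) + 4) * e1 + (((M : ℂ) + 2) * x ^ (M + 1)) * hx
    · refine cp_deriv_div (f := fun z => ((M : ℂ) + 1) * z ^ (2 * M + 4) + ((M : ℂ) + 3))
        (g := fun z => z ^ (M + 1))
        (((hasDerivAt_pow (2 * M + 4) x).const_mul ((M : ℂ) + 1)).add_const ((M : ℂ) + 3))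
        (hasDerivAt_pow (M + 1) x)
        (pow_ne_zero _ hx0) ?_
      push_cast
      have e1 : x ^ (2 * M + 3) * x ^ (M + 1) = x ^ (2 * M + 4) * x ^ M := by ring
      linear_combination (((M : ℂ) + 1) * (2 * (M : ℂ) + 4)) * e1 +
        (((M : ℂ) + 1) * ((M : ℂ) + 3) * x ^ M) * hx

theorem star_main (m n : ℕ) (hm : 2 ≤ m) (h : m ^ 2 ≤ n) : ((2 * m : ℕ) : ℕ∞) ≤ cpN0 n := by
  obtain ⟨M, rfl⟩ : ∃ M, m = M + 2 := ⟨m - 2, by omega⟩
  obtain ⟨n₀, hn₀, hw⟩ := star_witness M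
  have e : 2 * (M + 2) = 2 * M + 4 := by ring
  rw [e]
  exact (witness_mono hw (hn₀.trans h)).le

end Pool.Agent.H94.CP
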